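import Pool.Agent.helper28.PV.SpecS

set_option autoImplicit false

namespace Pool.Agent.PV

open Pool.Agent.CZ

private theorem HEM_pr_inj (k : ℕ) (t : UnitAddCircle) : pr k (inj k t) = t :=
  Pi.single_eq_same (M := fun _ : ℕ => UnitAddCircle) k t

private theorem HEM_pr_inj_ne (i k : ℕ) (h : i ≠ k) (t : UnitAddCircle) : pr k (inj i t) = 0 :=
  Pi.single_eq_of_ne (M := fun _ : ℕ => UnitAddCircle) (Ne.symm h) t

private theorem HEM_inj_zero (k : ℕ) : inj k 0 = inj 0 0 := by
  apply Subtype.ext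
  change (Pi.single k (0 : UnitAddCircle) : ℕ → UnitAddCircle) = Pi.single 0 0
  rw [Pi.single_zero, Pi.single_zero]

private theorem HEM_cover (x : HE) : ∃ k, x = inj k (pr k x) := by
  by_cases h : ∀ k, x.1 k = 0
  · refine ⟨0, ?_⟩
    apply Subtype.ext
    change x.1 = (Pi.single 0 (x.1 0) : ℕ → UnitAddCircle)
    rw [h 0, Pi.single_zero]
    funext k
    exact h k
  · push Not at h
    obtain ⟨k, hk⟩ := h
    refine ⟨k, ?_⟩
    apply Subtype.ext
    change x.1 = (Pi.single k (x.1 k) : ℕ → UnitAddCircle)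
    funext i
    by_cases hi : i = k
    · rw [hi, Pi.single_eq_same]
    · rw [Pi.single_eq_of_ne hi]
      exact (x.2 i k hi).resolve_right hk

private def HEM_S : StarSubalgebra ℂ C(HE, ℂ) where
  carrier := {c | ∃ F : Finset ℕ, ∀ k ∉ F, ∃ z : ℂ,
    pbC ℂ (inj k) c = algebraMap ℂ C(UnitAddCircle, ℂ) z}
  mul_mem' := by
    rintro a b ⟨F, hF⟩ ⟨F', hF'⟩
    refine ⟨F ∪ F', fun k hk => ?_⟩
    rw [Finset.mem_union, not_or] at hk
    obtain ⟨z, hz⟩ := hF k hk.1
    obtain ⟨z', hz'⟩ := hF' k hk.2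
    exact ⟨z * z', by rw [map_mul, hz, hz', map_mul]⟩
  add_mem' := by
    rintro a b ⟨F, hF⟩ ⟨F', hF'⟩
    refine ⟨F ∪ F', fun k hk => ?_⟩
    rw [Finset.mem_union, not_or] at hk
    obtain ⟨z, hz⟩ := hF k hk.1
    obtain ⟨z', hz'⟩ := hF' k hk.2
    exact ⟨z + z', by rw [map_add, hz, hz', map_add]⟩
  algebraMap_mem' := fun z => ⟨∅, fun k _ => ⟨z, (pbC ℂ (inj k)).commutes z⟩⟩
  star_mem' := by
    rintro a ⟨F, hF⟩
    refine ⟨F, fun k hk => ?_⟩
    obtain ⟨z, hz⟩ := hF k hk
    refine ⟨star z, ?_⟩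
    ext t
    have h := DFunLike.congr_fun hz t
    exact congrArg star h

private theorem HEM_fourier_inj (s t : UnitAddCircle) (h : (fourier 1 s : ℂ) = fourier 1 t) : s = t := by
  rw [fourier_one, fourier_one] at h
  exact AddCircle.injective_toCircle one_ne_zero (Circle.ext h)

private theorem HEM_main : HEM_stmt where
  iso := fun x => by
    change ‖algebraMap ℂ C(HE, ℂ) x‖ = ‖x‖
    have : Nonempty HE := ⟨inj 0 0⟩
    exact norm_algebraMap' _ _
  ran := by
    intro c hc
    refine ⟨c (inj 0 0), ?_⟩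
    ext x
    change c (inj 0 0) = c x
    obtain ⟨k, hk⟩ := HEM_cover x
    obtain ⟨z, hz⟩ := hc k
    have h0 : c (inj k 0) = z := DFunLike.congr_fun hz 0
    have h1 : c (inj k (pr k x)) = z := DFunLike.congr_fun hz (pr k x)
    rw [hk, h1, ← h0, HEM_inj_zero k]
  sca := fun k x => ⟨x, rfl⟩
  ce := fun k => ContinuousMap.continuous_precomp _
  cr := fun k => ContinuousMap.continuous_precomp _
  er := by
    intro k d
    ext t
    exact congrArg d (HEM_pr_inj k t)
  eo := by
    intro i k hik d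
    refine ⟨d 0, ?_⟩
    ext t
    exact congrArg d (HEM_pr_inj_ne i k hik t)
  dense := by
    have h := ContinuousMap.starSubalgebra_topologicalClosure_eq_top_of_separatesPoints HEM_S (by
      intro x y hxy
      have : ∃ k, x.1 k ≠ y.1 k := by
        by_contra hcon
        push Not at hcon
        exact hxy (Subtype.ext (funext hcon))
      obtain ⟨k, hk⟩ := this
      refine ⟨_, ⟨pbC ℂ (pr k) (fourier 1), ⟨{k}, ?_⟩, rfl⟩, ?_⟩
      · intro i hi
        rw [Finset.mem_singleton] at hi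
        refine ⟨(fourier 1 : C(UnitAddCircle, ℂ)) 0, ?_⟩
        ext t
        exact congrArg (fourier 1 : C(UnitAddCircle, ℂ)) (HEM_pr_inj_ne i k hi t)
      · intro h
        exact hk (HEM_fourier_inj _ _ h))
    have h2 : Dense ((HEM_S : StarSubalgebra ℂ C(HE, ℂ)) : Set C(HE, ℂ)) := by
      intro c
      have : c ∈ HEM_S.topologicalClosure := by rw [h]; trivial
      exact this
    exact h2

theorem HEM : HEM_stmt := HEM_main

end Pool.Agent.PV
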