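import Pool.Agent.helper53.PV.SpecD

set_option autoImplicit false

namespace Pool.Agent.PV

open Pool.Agent.CZ

private theorem JST_split {X : Type} [TopologicalSpace X] (f : C(X, ℂ)) :
    f = rc (reC f) + Complex.I • rc (imC f) := by
  ext x
  change f x = ((f x).re : ℂ) + Complex.I • ((f x).im : ℂ)
  rw [smul_eq_mul, mul_comm]
  exact (Complex.re_add_im (f x)).symm

private theorem JST_rcadd {X : Type} [TopologicalSpace X] (f g : C(X, ℝ)) :
    rc (f + g) = rc f + rc g := by
  ext x
  change (((f x + g x : ℝ)) : ℂ) = (f x : ℂ) + (g x : ℂ)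
  exact Complex.ofReal_add _ _

private theorem JST_rcsmul {X : Type} [TopologicalSpace X] (r : ℝ) (f : C(X, ℝ)) :
    rc (r • f) = (r : ℂ) • rc f := by
  ext x
  change (((r * f x : ℝ)) : ℂ) = (r : ℂ) * (f x : ℂ)
  exact Complex.ofReal_mul _ _

theorem JST : JST_stmt := by
  intro X _ _ α A _ ι u hcov t
  have pos : ∀ h : C(X, ℝ), (∀ x, 0 ≤ h x) →
      0 ≤ (t.τ (ι (rc h))).re ∧ (t.τ (ι (rc h))).im = 0 := by
    intro h hh
    let k : C(X, ℝ) := ⟨fun x => Real.sqrt (h x), Real.continuous_sqrt.comp h.continuous⟩
    have e : rc h = star (rc k) * rc k := by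
      ext x
      change ((h x : ℝ) : ℂ) = star ((Real.sqrt (h x) : ℝ) : ℂ) * ((Real.sqrt (h x) : ℝ) : ℂ)
      rw [Complex.star_def, Complex.conj_ofReal, ← Complex.ofReal_mul, Real.mul_self_sqrt (hh x)]
    rw [e, map_mul, map_star]
    exact t.pos _
  have real : ∀ h : C(X, ℝ), (t.τ (ι (rc h))).im = 0 := by
    intro h
    let p : C(X, ℝ) := ⟨fun x => max (h x) 0, h.continuous.max continuous_const⟩
    let m : C(X, ℝ) := ⟨fun x => max (-h x) 0, h.continuous.neg.max continuous_const⟩
    have e : rc p = rc h + rc m := by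
      rw [← JST_rcadd]
      congr 1
      ext x
      change max (h x) 0 = h x + max (-h x) 0
      rcases le_total 0 (h x) with h0 | h0
      · rw [max_eq_left h0, max_eq_right (by linarith)]; ring
      · rw [max_eq_right h0, max_eq_left (by linarith)]; ring
    have h1 := (pos p fun x => le_max_right _ _).2
    have h2 := (pos m fun x => le_max_right _ _).2
    rw [e, map_add, map_add, Complex.add_im, h2, add_zero] at h1
    exact h1
  have inv : ∀ f : C(X, ℂ), t.τ (ι (f.comp (α.symm : C(X, X)))) = t.τ (ι f) := by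
    intro f
    rw [← hcov f, t.comm, ← mul_assoc, Unitary.star_mul_self_of_mem u.2, one_mul]
  refine ⟨{ φ := { toFun := fun h => (t.τ (ι (rc h))).re
                   map_add' := ?_
                   map_smul' := ?_ }
            nonneg := fun f hf => (pos f hf).1
            one := ?_
            inv := ?_ }, ?_⟩
  · intro f g
    rw [JST_rcadd, map_add, map_add, Complex.add_re]
  · intro r f
    rw [JST_rcsmul, map_smul, map_smul, smul_eq_mul, Complex.re_ofReal_mul]
    rfl
  · change (t.τ (ι (rc 1))).re = 1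
    have e : (rc (1 : C(X, ℝ))) = 1 := by
      ext x
      change (((1 : ℝ)) : ℂ) = 1
      exact Complex.ofReal_one
    rw [e, map_one, t.one, Complex.one_re]
  · intro f
    change (t.τ (ι (rc (f.comp (α : C(X, X)))))).re = (t.τ (ι (rc f))).re
    have h1 := inv ((rc f).comp (α : C(X, X)))
    have e : ((rc f).comp (α : C(X, X))).comp (α.symm : C(X, X)) = rc f := by
      ext x
      exact congrArg (rc f) (α.apply_symm_apply x)
    rw [e] at h1
    rw [h1]
    rfl
  · intro f
    have e : t.τ (ι f) = t.τ (ι (rc (reC f))) + Complex.I * t.τ (ι (rc (imC f))) := by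
      conv_lhs => rw [JST_split f]
      rw [map_add, map_add, map_smul, map_smul, smul_eq_mul]
    rw [e]
    apply Complex.ext
    · change (t.τ (ι (rc (reC f)))).re = _
      rw [Complex.add_re, Complex.I_mul_re, real, neg_zero, add_zero]
    · change (t.τ (ι (rc (imC f)))).re = _
      rw [Complex.add_im, Complex.I_mul_im, real, zero_add]

end Pool.Agent.PV
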