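import Pool.Agent.helper77.PV.SpecK2

set_option autoImplicit false

open scoped Matrix Topology
open Filter

namespace Pool.Agent.PV

open Pool.Agent.CZ Pool.Agent.PVH

private abbrev KPT_K : Set ℝ := {0}

private theorem KPT_sub (x y : KPT_K) : x = y := by
  apply Subtype.ext
  rw [Set.mem_singleton_iff.mp x.2, Set.mem_singleton_iff.mp y.2]

private theorem KPT_aff (a : C(KPT_K, ℝ)) : IsAff a := by
  refine ⟨fun x y z s t _ _ hst _ => ?_⟩
  rw [KPT_sub x z, KPT_sub y z, ← add_mul, hst, one_mul]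

private theorem KPT_simplex : IsSimplex KPT_K := by
  intro a₁ a₂ b₁ b₂ _ _ _ _ h11 h12 h21 h22
  refine ⟨a₁ ⊔ a₂, KPT_aff _, fun x => ?_, fun x => ?_, fun x => ?_, fun x => ?_⟩
  · rw [ContinuousMap.sup_apply]; exact le_sup_left
  · rw [ContinuousMap.sup_apply]; exact le_sup_right
  · rw [ContinuousMap.sup_apply]; exact sup_le (h11 x) (h21 x)
  · rw [ContinuousMap.sup_apply]; exact sup_le (h12 x) (h22 x)

theorem KPT (hKSU : KSU_stmt) (hKPR : KPR_stmt) : KPT_stmt := by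
  intro G₀ _ _ H S hHS htf hnc g hg hg0 G' _ _
  obtain ⟨ρ, h1, h2, h3⟩ := hKPR G₀ H S hHS htf hnc g hg hg0
  let ρ' : G₀ →+ C(KPT_K, ℝ) :=
    { toFun := fun x => ContinuousMap.const _ (ρ x)
      map_zero' := by
        ext t
        exact map_zero ρ
      map_add' := by
        intro x y
        ext t
        exact map_add ρ x y }
  have hKD : KD KPT_K ρ' g := by
    refine ⟨isCompact_singleton, convex_singleton 0, Set.singleton_nonempty 0, fun x => KPT_aff _, ?_, ?_⟩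
    · intro a _ ε hε
      obtain ⟨y, ⟨x, rfl⟩, hy⟩ := h3.exists_dist_lt (a ⟨0, rfl⟩) hε
      refine ⟨x, fun t => ?_⟩
      rw [KPT_sub t ⟨0, rfl⟩]
      change |ρ x - a ⟨0, rfl⟩| < ε
      rw [abs_sub_comm]
      exact hy
    · ext t
      exact h1
  obtain ⟨X, iX, iC, iM, iI, α, hmin, hsb, A, iA, ι, u, hcp, φ, ψ, τ, hφ, hτ, -, -⟩ :=
    hKSU ℝ KPT_K KPT_simplex G₀ g ρ' hKD G' H S hHS hg htf (fun x hx => by
      ext t
      exact h2 x hx)
  refine ⟨X, iX, iC, iM, iI, α, hmin, hsb, A, iA, ι, u, hcp, ⟨τ ⟨0, rfl⟩, fun t' => ?_⟩, ⟨φ, hφ⟩, ⟨ψ⟩⟩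
  obtain ⟨k, rfl⟩ := hτ.2 t'
  rw [KPT_sub k ⟨0, rfl⟩]

end Pool.Agent.PV
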