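import Pool.Agent.helper77.PV.SpecK

set_option autoImplicit false

open scoped Matrix Topology
open Filter

namespace Pool.Agent.PV

open Pool.Agent.CZ Pool.Agent.PVH

private theorem KTR_ext {A : Type} [CStarAlgebra A] (s t : TracialState A) (h : ∀ a, s.τ a = t.τ a) : s = t := by
  cases s with
  | mk τ₁ p₁ o₁ c₁ =>
    cases t with
    | mk τ₂ p₂ o₂ c₂ =>
      have : τ₁ = τ₂ := LinearMap.ext h
      subst this
      rfl

private theorem KTR_lim {E : Type} [AddCommGroup E] [Module ℝ E] [TopologicalSpace E] {K : Set E}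
    (F : K → ℝ) (h : ∀ ε : ℝ, 0 < ε → ∃ b : C(K, ℝ), IsAff b ∧ ∀ t, |F t - b t| ≤ ε) :
    ∃ b : C(K, ℝ), IsAff b ∧ ∀ t, b t = F t := by
  have hc : Continuous F := by
    refine continuous_of_uniform_approx_of_continuous ?_
    intro u hu
    obtain ⟨ε, hε, hu2⟩ := Metric.mem_uniformity_dist.mp hu
    obtain ⟨b, -, hb⟩ := h (ε / 2) (by linarith)
    refine ⟨b, b.continuous, fun y => hu2 ?_⟩
    rw [Real.dist_eq]
    exact lt_of_le_of_lt (hb y) (by linarith)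
  refine ⟨⟨F, hc⟩, ⟨?_⟩, fun t => rfl⟩
  intro x y z s t hs ht hst hz
  change F z = s * F x + t * F y
  by_contra hne
  have hpos : 0 < |F z - (s * F x + t * F y)| := abs_pos.mpr (sub_ne_zero.mpr hne)
  obtain ⟨b, hb, hb2⟩ := h (|F z - (s * F x + t * F y)| / 3) (by linarith)
  have e := hb.aff x y z s t hs ht hst hz
  have h1 := abs_le.mp (hb2 z)
  have h2 := abs_le.mp (hb2 x)
  have h3 := abs_le.mp (hb2 y)
  set d := |F z - (s * F x + t * F y)| with hd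
  have hst' : t = 1 - s := by linarith
  have k1 : s * (F x - b x) ≤ s * (d / 3) := mul_le_mul_of_nonneg_left h2.2 hs
  have k2 : s * (-(d / 3)) ≤ s * (F x - b x) := mul_le_mul_of_nonneg_left h2.1 hs
  have k3 : t * (F y - b y) ≤ t * (d / 3) := mul_le_mul_of_nonneg_left h3.2 ht
  have k4 : t * (-(d / 3)) ≤ t * (F y - b y) := mul_le_mul_of_nonneg_left h3.1 ht
  have k5 : s * (d / 3) + t * (d / 3) = d / 3 := by rw [← add_mul, hst, one_mul]
  have : d ≤ d / 3 + d / 3 := by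
    have : |F z - (s * F x + t * F y)| ≤ d / 3 + d / 3 := by
      rw [abs_le]
      constructor <;> linarith
    rw [← hd] at this
    exact this
  linarith

theorem KTR (hDTB : DTB_stmt) : KTR_stmt := by
  intro X₀ Y X _ _ _ _ _ _ _ _ _ _ α₀ α π e r hE hm₀ hm A A₀ _ _ ι u c ι₀ u₀ c₀ hC hC₀ Φ hΦ hc E _ _ _ K τ hτ haff
  obtain ⟨h1, h2, h3, h4⟩ := hDTB X₀ Y X α₀ α π e r hE hm₀ hm A A₀ ι u c ι₀ u₀ c₀ hC hC₀ Φ hΦ hc
  choose τ' hτ' using fun t : K => h2 (τ t)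
  refine ⟨τ', ⟨?_, ?_⟩, hτ', ?_⟩
  · intro s t hst
    apply hτ.1
    apply KTR_ext
    intro a
    rw [← hτ' s a, ← hτ' t a, hst]
  · intro t'
    obtain ⟨t₀, ht₀⟩ := h1 t'
    obtain ⟨t, rfl⟩ := hτ.2 t₀
    exact ⟨t, h3 _ _ fun a => by rw [hτ' t a, ht₀ a]⟩
  · intro a
    obtain ⟨b, hb, hb2⟩ := KTR_lim (K := K) (fun t => ((τ' t).τ a).re) (by
      intro ε hε
      obtain ⟨a₀, ha₀⟩ := h4 a ε hε
      obtain ⟨b, b', hb, -, hbb⟩ := haff a₀
      refine ⟨b, hb, fun t => ?_⟩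
      have e1 : b t = ((τ' t).τ (Φ a₀)).re := by rw [hτ' t a₀, hbb t]
      change |((τ' t).τ a).re - b t| ≤ ε
      rw [e1, ← Complex.sub_re]
      exact (Complex.abs_re_le_norm _).trans (ha₀ (τ' t)))
    obtain ⟨b', hb', hb2'⟩ := KTR_lim (K := K) (fun t => ((τ' t).τ a).im) (by
      intro ε hε
      obtain ⟨a₀, ha₀⟩ := h4 a ε hε
      obtain ⟨b, b', -, hb', hbb⟩ := haff a₀
      refine ⟨b', hb', fun t => ?_⟩
      have e1 : b' t = ((τ' t).τ (Φ a₀)).im := by rw [hτ' t a₀, hbb t]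
      change |((τ' t).τ a).im - b' t| ≤ ε
      rw [e1, ← Complex.sub_im]
      exact (Complex.abs_im_le_norm _).trans (ha₀ (τ' t)))
    refine ⟨b, b', hb, hb', fun t => ?_⟩
    rw [hb2 t, hb2' t]

end Pool.Agent.PV
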